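import Pool.Agent.H49.CE.Targets

/-!
# MP_70000a_co, module B8 : `T_LARGE` from `T_Z1`, `T_CNT`, `T_EX`, `T_EXT`, `T_AT`.
-/

set_option autoImplicit false

noncomputable section

namespace CE

open scoped Classical

/-- The map `y` agrees with `z` on `W`, so the part of `T_Λ(y)` inside `W` is controlled by `z`. -/
theorem b8_rank (F : Type) [Field F] (V : Type) [AddCommGroup V] [Module F V] [Finite V]
    (E : Type) [AddCommGroup E] [Module F E]
    (ι : Type) (v : ι → V) (T : Finset ι) (f : ι → E) (W : Submodule F V) (z : V →ₗ[F] E)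
    (Lam : Submodule F E) (y : V →ₗ[F] E) (hy : ∀ w ∈ W, y w = z w) (w0 : ℝ)
    (h0 : (Module.finrank F
      (sp F v (T.filter (fun i => v i ∈ W ∧ z (v i) - f i ∈ Lam))) : ℝ) ≤ w0)
    (h2 : 2 * w0 < (Module.finrank F (W ⊓ sp F v (TL F v T f Lam y) : Submodule F V) : ℝ)) :
    w0 < (Module.finrank F
      (W ⊓ sp F v ((TL F v T f Lam y).filter (fun i => v i ∉ W)) : Submodule F V) : ℝ) := by
  set A : Submodule F V := sp F v (T.filter (fun i => v i ∈ W ∧ z (v i) - f i ∈ Lam)) with hA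
  set B : Submodule F V := sp F v ((TL F v T f Lam y).filter (fun i => v i ∉ W)) with hB
  have hAW : A ≤ W := by
    rw [hA]
    refine Submodule.span_le.2 ?_
    rintro _ ⟨i, hi, rfl⟩
    have hi' := (Finset.mem_filter.1 (Finset.mem_coe.1 hi)).2.1
    exact hi'
  have hle : sp F v (TL F v T f Lam y) ≤ A ⊔ B := by
    refine Submodule.span_le.2 ?_
    rintro _ ⟨i, hi, rfl⟩
    have hi1 := Finset.mem_coe.1 hi
    have hi2 := Finset.mem_filter.1 hi1
    by_cases hW : v i ∈ W
    · refine Submodule.mem_sup_left (Submodule.subset_span ⟨i, ?_, rfl⟩)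
      refine Finset.mem_coe.2 (Finset.mem_filter.2 ⟨hi2.1, hW, ?_⟩)
      have := hi2.2
      rw [hy _ hW] at this
      exact this
    · exact Submodule.mem_sup_right
        (Submodule.subset_span ⟨i, Finset.mem_coe.2 (Finset.mem_filter.2 ⟨hi1, hW⟩), rfl⟩)
  have hmod : W ⊓ (A ⊔ B) = A ⊔ W ⊓ B := by
    rw [inf_comm, sup_inf_assoc_of_le B hAW, inf_comm]
  have h3 : Module.finrank F (W ⊓ sp F v (TL F v T f Lam y) : Submodule F V) ≤
      Module.finrank F (A ⊔ W ⊓ B : Submodule F V) := by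
    apply Submodule.finrank_mono
    rw [← hmod]
    exact inf_le_inf_left W hle
  have h4 : Module.finrank F (A ⊔ W ⊓ B : Submodule F V) ≤
      Module.finrank F A + Module.finrank F (W ⊓ B : Submodule F V) := by
    have := Submodule.finrank_sup_add_finrank_inf_eq A (W ⊓ B)
    omega
  have h5 : (Module.finrank F (W ⊓ sp F v (TL F v T f Lam y) : Submodule F V) : ℝ) ≤
      (Module.finrank F A : ℝ) + (Module.finrank F (W ⊓ B : Submodule F V) : ℝ) := by
    exact_mod_cast h3.trans h4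
  linarith

/-- The bound for one set `B`. -/
theorem b8_one (hZ1 : T_Z1) (hEXT : T_EXT) (hAT : T_AT)
    (F : Type) [Field F] [Fintype F] (V : Type) [AddCommGroup V] [Module F V] [Finite V]
    (E : Type) [AddCommGroup E] [Module F E] [Finite E]
    (ι : Type) (v : ι → V) (N T : Finset ι) (f : ι → E) (x kap b : ℝ)
    (W : Submodule F V) (z : V →ₗ[F] E) (Lam : Submodule F E)
    (hx : 0 < x) (hb : 0 ≤ b) (hE : 4 * Real.exp kap ≤ (Nat.card E : ℝ)) (hTN : T ⊆ N)
    (hv : ∀ i ∈ N, v i ≠ 0)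
    (hSP : ∀ T' : Finset ι, T' ⊂ T → SP F v N x kap b f T')
    (j m : ℕ) (hj : 1 ≤ j) (hm : m ≤ j) (B : Finset ι) (hB : B ∈ BB F v N W j m) (hBT : B ⊆ T) :
    ({y | y ∈ YY F v T f W z ∧ B ⊆ TL F v T f Lam y}.ncard : ℝ) *
        (Nat.card E : ℝ) ^ (Module.finrank F W) ≤
      (2 * Real.exp kap * (Nat.card Lam : ℝ) / (Nat.card E : ℝ)) ^ j *
        (Real.exp (GG F v N x kap b W) * ((Av F v T f).ncard : ℝ)) := by
  obtain ⟨-, hBB⟩ := Finset.mem_filter.1 hB
  obtain ⟨-, -, hcard, hrank, -⟩ := hBB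
  have hEpos : (0 : ℝ) < (Nat.card E : ℝ) := by
    have := Real.exp_pos kap
    linarith
  obtain ⟨hpos, hrem⟩ := hAT F V E ι v N T f x kap b hx.le hb hE hTN hv hSP
  have hBne : B.Nonempty := by
    rw [← Finset.card_pos, hcard]; omega
  have hss : T \ B ⊂ T := by
    refine Finset.sdiff_ssubset hBT hBne
  have hSPB := hSP (T \ B) hss
  set X : Submodule F V := W ⊔ sp F v B with hX
  have hXr : Module.finrank F X = Module.finrank F W + j := hrank
  obtain ⟨hmono, hone, -, -⟩ := hZ1 F V ι v N x hx.le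
  have hGX : GG F v N x kap b X ≤ GG F v N x kap b W + kap * j := by
    have h1 : ZZ F v N x X ≤ ZZ F v N x W := hmono W X le_sup_left
    have h2 : Real.log (ZZ F v N x X) ≤ Real.log (ZZ F v N x W) :=
      Real.log_le_log (lt_of_lt_of_le one_pos (hone X)) h1
    have h3 : b * Real.log (ZZ F v N x X) ≤ b * Real.log (ZZ F v N x W) :=
      mul_le_mul_of_nonneg_left h2 hb
    unfold GG
    rw [hXr]
    push_cast
    nlinarith
  have hAvB : ((Av F v (T \ B) f).ncard : ℝ) ≤ 2 ^ j * ((Av F v T f).ncard : ℝ) := by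
    have h1 := hrem B hBT
    have h2 : ((4 : ℝ) / 3) ^ B.card ≤ 2 ^ j := by
      rw [hcard]
      calc ((4 : ℝ) / 3) ^ (j + m) ≤ (4 / 3) ^ (j + j) :=
            pow_le_pow_right₀ (by norm_num) (by omega)
        _ = ((4 / 3) * (4 / 3)) ^ j := by rw [pow_add, ← mul_pow]
        _ ≤ 2 ^ j := pow_le_pow_left₀ (by norm_num) (by norm_num) j
    exact h1.trans (mul_le_mul_of_nonneg_right h2 (Nat.cast_nonneg _))
  set a : ℝ := ((Av F v T f).ncard : ℝ) with ha
  have ha0 : 0 ≤ a := Nat.cast_nonneg _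
  set e : ℝ := (Nat.card E : ℝ) with he
  set k : ℕ := Module.finrank F W with hk
  set M : ℝ := Real.exp (GG F v N x kap b W + kap * j) * (2 ^ j * a) / e ^ (k + j) with hM
  have hM0 : 0 ≤ M := by positivity
  have hYX : ∀ z' : V →ₗ[F] E, ((YY F v (T \ B) f X z').ncard : ℝ) ≤ M := by
    intro z'
    have h1 := hSPB X z'
    rw [hXr] at h1
    rw [hM, le_div_iff₀ (pow_pos hEpos _)]
    refine h1.trans ?_
    exact mul_le_mul (Real.exp_le_exp.2 hGX) hAvB (Nat.cast_nonneg _) (Real.exp_pos _).le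
  have h6 := hEXT F V E ι v T f W z Lam B M hBT hM0 hYX
  have hdiff : Module.finrank F (W ⊔ sp F v B : Submodule F V) - Module.finrank F W = j := by
    rw [hrank]; omega
  rw [hdiff] at h6
  have h7 : ({y | y ∈ YY F v T f W z ∧ B ⊆ TL F v T f Lam y}.ncard : ℝ) * e ^ k ≤
      ((Nat.card Lam : ℝ) ^ j * M) * e ^ k :=
    mul_le_mul_of_nonneg_right h6 (pow_nonneg hEpos.le _)
  refine h7.trans (le_of_eq ?_)
  rw [hM, Real.exp_add, mul_comm kap (j : ℝ), Real.exp_nat_mul, pow_add]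
  have hek : e ^ k ≠ 0 := (pow_pos hEpos k).ne'
  have hej : e ^ j ≠ 0 := (pow_pos hEpos j).ne'
  rw [div_pow, mul_pow, mul_pow]
  field_simp

/-- A geometric sum. -/
theorem b8_geom (eta : ℝ) (h0 : 0 ≤ eta) (h4 : 4 * eta ≤ 1) (j0 n : ℕ) :
    ∑ j ∈ Finset.Icc j0 n, ((j : ℝ) + 1) * eta ^ j ≤ 2 * (2 * eta) ^ j0 := by
  have h1 : ∀ j ∈ Finset.Icc j0 n, ((j : ℝ) + 1) * eta ^ j ≤ (2 * eta) ^ j := by
    intro j _
    have h2 : ((j : ℝ) + 1) ≤ 2 ^ j := by
      have : j + 1 ≤ 2 ^ j := Nat.lt_two_pow_self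
      exact_mod_cast this
    rw [mul_pow]
    exact mul_le_mul_of_nonneg_right h2 (pow_nonneg h0 _)
  refine (Finset.sum_le_sum h1).trans ?_
  have hgen : ∀ n : ℕ, ∑ j ∈ Finset.Icc j0 n, (2 * eta) ^ j ≤ 2 * (2 * eta) ^ j0 - (2 * eta) ^ n
      ∨ n < j0 := by
    intro n
    induction n with
    | zero =>
      by_cases hj : j0 = 0
      · left
        subst hj
        simp
        norm_num
      · right; omega
    | succ n ih =>
      by_cases hn : n + 1 < j0
      · right; exact hn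
      · left
        by_cases hn2 : n + 1 = j0
        · rw [← hn2, Finset.Icc_self, Finset.sum_singleton]
          linarith
        · have hlt : j0 ≤ n := by omega
          rcases ih with ih | ih
          · rw [Finset.sum_Icc_succ_top (by omega)]
            have h5 : (2 * eta) ^ (n + 1) ≤ (1 / 2) * (2 * eta) ^ n := by
              rw [pow_succ, mul_comm]
              exact mul_le_mul_of_nonneg_right (by linarith) (by positivity)
            linarith
          · omega
  rcases hgen n with h | h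
  · have : 0 ≤ (2 * eta) ^ n := by positivity
    linarith
  · rw [Finset.Icc_eq_empty (by omega), Finset.sum_empty]
    positivity

theorem b8 (hZ1 : T_Z1) (hCNT : T_CNT) (hEX : T_EX) (hEXT : T_EXT) (hAT : T_AT) : T_LARGE := by
  intro F _ _ V _ _ _ E _ _ _ ι v N T f x kap b d tau w0 eta j0 W z Lam
    hx hx1 hb hd htau hw0 hj0 hj0t hE hTN hv hHF hDens hSP heta heta4 hrank0
  have hEpos : (0 : ℝ) < (Nat.card E : ℝ) := by
    have := Real.exp_pos kap
    linarith
  set e : ℝ := (Nat.card E : ℝ) with he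
  set k : ℕ := Module.finrank F W with hk
  set A : ℝ := Real.exp (GG F v N x kap b W) * ((Av F v T f).ncard : ℝ) with hA
  have hA0 : 0 ≤ A := by positivity
  have heta0 : 0 ≤ eta := by rw [heta]; positivity
  set P : Finset ι → Set (V →ₗ[F] E) :=
    fun B => {y | y ∈ YY F v T f W z ∧ B ⊆ TL F v T f Lam y} with hP
  set Bs : ℕ → ℕ → Finset (Finset ι) := fun j m => (BB F v N W j m).filter (fun B => B ⊆ T) with hBs
  have : Finite (V →ₗ[F] E) := DFunLike.finite _
  have hsub : {y | y ∈ YY F v T f W z ∧ 2 * w0 <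
        (Module.finrank F (W ⊓ sp F v (TL F v T f Lam y) : Submodule F V) : ℝ)} ⊆
      ⋃ j ∈ Finset.Icc j0 N.card, ⋃ m ∈ Finset.range (j + 1), ⋃ B ∈ Bs j m, P B := by
    rintro y ⟨hyY, hy2⟩
    have hyz : ∀ w ∈ W, y w = z w := hyY.2
    have h1 := b8_rank F V E ι v T f W z Lam y hyz w0 hrank0 hy2
    set R : Finset ι := (TL F v T f Lam y).filter (fun i => v i ∉ W) with hR
    have hRT : R ⊆ T := fun i hi =>
      (Finset.mem_filter.1 (Finset.mem_filter.1 hi).1).1
    obtain ⟨B, j, m, hBR, hBB, hmj, hle⟩ := hEX F V ι v N tau W R htau hDens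
      (hRT.trans hTN) (fun i hi => (Finset.mem_filter.1 hi).2)
    have hj : j0 ≤ j := by
      have h2 : ((j0 : ℝ) - 1) * tau < tau * j := lt_of_le_of_lt hj0t (lt_of_lt_of_le h1 hle)
      have h3 : ((j0 : ℝ) - 1) < j := by
        rw [mul_comm tau] at h2
        exact lt_of_mul_lt_mul_right h2 htau.le
      have h4 : (j0 : ℝ) < (j : ℝ) + 1 := by linarith
      have h5 : j0 < j + 1 := by exact_mod_cast h4
      omega
    have hBN : B ⊆ N := Finset.mem_powerset.1 (Finset.mem_filter.1 hBB).1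
    have hBc : B.card = j + m := (Finset.mem_filter.1 hBB).2.2.2.1
    have hjN : j ≤ N.card := by
      have := Finset.card_le_card hBN
      omega
    simp only [Set.mem_iUnion]
    refine ⟨j, Finset.mem_Icc.2 ⟨hj, hjN⟩, m, Finset.mem_range.2 (by omega), B, ?_, ?_⟩
    · exact Finset.mem_filter.2 ⟨hBB, hBR.trans hRT⟩
    · exact ⟨hyY, hBR.trans (Finset.filter_subset _ _)⟩
  have hcard : ({y | y ∈ YY F v T f W z ∧ 2 * w0 <
        (Module.finrank F (W ⊓ sp F v (TL F v T f Lam y) : Submodule F V) : ℝ)}.ncard : ℝ) ≤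
      ∑ j ∈ Finset.Icc j0 N.card, ∑ m ∈ Finset.range (j + 1), ∑ B ∈ Bs j m, ((P B).ncard : ℝ) := by
    have h1 := Set.ncard_le_ncard hsub (Set.toFinite _)
    have h2 : (⋃ j ∈ Finset.Icc j0 N.card, ⋃ m ∈ Finset.range (j + 1), ⋃ B ∈ Bs j m, P B).ncard ≤
        ∑ j ∈ Finset.Icc j0 N.card, ∑ m ∈ Finset.range (j + 1), ∑ B ∈ Bs j m, (P B).ncard := by
      refine (Finset.set_ncard_biUnion_le _ _).trans (Finset.sum_le_sum fun j _ => ?_)
      refine (Finset.set_ncard_biUnion_le _ _).trans (Finset.sum_le_sum fun m _ => ?_)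
      exact Finset.set_ncard_biUnion_le _ _
    exact_mod_cast h1.trans h2
  have hstep : ∀ j ∈ Finset.Icc j0 N.card, ∀ m ∈ Finset.range (j + 1),
      (∑ B ∈ Bs j m, ((P B).ncard : ℝ)) * e ^ k ≤ 4 * Real.exp (d * k) * eta ^ j * A := by
    intro j hj m hm
    have hj1 : 1 ≤ j := hj0.trans (Finset.mem_Icc.1 hj).1
    have hmj : m ≤ j := by have := Finset.mem_range.1 hm; omega
    set c : ℝ := 2 * Real.exp kap * (Nat.card Lam : ℝ) / e with hc
    have hc0 : 0 ≤ c := by positivity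
    have h1 : ∀ B ∈ Bs j m, ((P B).ncard : ℝ) * e ^ k ≤ c ^ j * A := by
      intro B hB
      obtain ⟨hB1, hB2⟩ := Finset.mem_filter.1 hB
      exact b8_one hZ1 hEXT hAT F V E ι v N T f x kap b W z Lam hx hb hE hTN hv hSP j m hj1 hmj
        B hB1 hB2
    have h2 : (∑ B ∈ Bs j m, ((P B).ncard : ℝ)) * e ^ k ≤ ((Bs j m).card : ℝ) * (c ^ j * A) := by
      rw [Finset.sum_mul]
      refine (Finset.sum_le_sum h1).trans (le_of_eq ?_)
      rw [Finset.sum_const, nsmul_eq_mul]
    have h3 : ((Bs j m).card : ℝ) ≤ ((BB F v N W j m).card : ℝ) := by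
      exact_mod_cast Finset.card_le_card (Finset.filter_subset _ _)
    have h4 := hCNT F V ι v N x d hx hx1 hd hHF W j m
    have h5 : x ^ (2 * j) ≤ x ^ (j + m) := pow_le_pow_of_le_one hx.le hx1 (by omega)
    have h6 : ((BB F v N W j m).card : ℝ) * x ^ (2 * j) ≤ 4 * Real.exp (d * ((k : ℝ) + j)) :=
      (mul_le_mul_of_nonneg_left h5 (Nat.cast_nonneg _)).trans h4
    have h7 : ((BB F v N W j m).card : ℝ) ≤ 4 * Real.exp (d * ((k : ℝ) + j)) / x ^ (2 * j) := by
      rw [le_div_iff₀ (pow_pos hx _)]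
      exact h6
    have h8 : ((Bs j m).card : ℝ) * (c ^ j * A) ≤
        4 * Real.exp (d * ((k : ℝ) + j)) / x ^ (2 * j) * (c ^ j * A) :=
      mul_le_mul_of_nonneg_right (h3.trans h7) (by positivity)
    refine h2.trans (h8.trans (le_of_eq ?_))
    have h9 : eta = Real.exp d / x ^ 2 * c := by
      rw [heta, hc]
      field_simp
    have h10 : Real.exp (d * ((k : ℝ) + j)) = Real.exp (d * k) * Real.exp d ^ j := by
      rw [mul_add, Real.exp_add, mul_comm d (j : ℝ), Real.exp_nat_mul]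
    have h11 : eta ^ j = Real.exp d ^ j / x ^ (2 * j) * c ^ j := by
      rw [h9, mul_pow, div_pow, ← pow_mul]
    rw [h10, h11]
    ring
  have hsum : (∑ j ∈ Finset.Icc j0 N.card, ∑ m ∈ Finset.range (j + 1),
      ∑ B ∈ Bs j m, ((P B).ncard : ℝ)) * e ^ k ≤
      8 * Real.exp (d * k) * (2 * eta) ^ j0 * A := by
    rw [Finset.sum_mul]
    have h1 : ∀ j ∈ Finset.Icc j0 N.card,
        (∑ m ∈ Finset.range (j + 1), ∑ B ∈ Bs j m, ((P B).ncard : ℝ)) * e ^ k ≤
          (((j : ℝ) + 1) * eta ^ j) * (4 * Real.exp (d * k) * A) := by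
      intro j hj
      rw [Finset.sum_mul]
      refine (Finset.sum_le_sum (hstep j hj)).trans (le_of_eq ?_)
      rw [Finset.sum_const, Finset.card_range, nsmul_eq_mul]
      push_cast
      ring
    refine (Finset.sum_le_sum h1).trans ?_
    rw [← Finset.sum_mul]
    have h2 := b8_geom eta heta0 heta4 j0 N.card
    have h3 : (∑ j ∈ Finset.Icc j0 N.card, ((j : ℝ) + 1) * eta ^ j) * (4 * Real.exp (d * k) * A) ≤
        (2 * (2 * eta) ^ j0) * (4 * Real.exp (d * k) * A) :=
      mul_le_mul_of_nonneg_right h2 (by positivity)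
    refine h3.trans (le_of_eq ?_)
    ring
  exact (mul_le_mul_of_nonneg_right hcard (pow_nonneg hEpos.le _)).trans hsum

end CE
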